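import Pool.Agent.H65PR.Trap

set_option autoImplicit false

open Set Filter Topology MeasureTheory

namespace Pool.Agent.H65PR

open Pool.Agent.H800R2
open scoped RealInnerProductSpace ContDiff

variable {n : ℕ}

theorem main {n : ℕ} (hn : 2 ≤ n) : ∃ Ω : Set (Euc n), IsSmoothDomain Ω ∧
    ∃ U ⊆ Ω, ∃ D ⊆ Ω, IsOpen U ∧ 0 < volume U ∧ IsOpen D ∧ D.Nonempty ∧
      ∀ P ∈ U, (∀ t : ℝ, Disjoint (front Ω P t) D) ∧ ¬ FrontsBecomeDense Ω P := by
  obtain ⟨m, rfl⟩ : ∃ m, n = m + 2 := ⟨n - 2, by omega⟩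
  obtain ⟨e, he0⟩ : ∃ e : Euc (m + 2), e = EuclideanSpace.single 0 1 := ⟨_, rfl⟩
  obtain ⟨u, hu0⟩ : ∃ u : Euc (m + 2), u = EuclideanSpace.single 1 1 := ⟨_, rfl⟩
  have he : ‖e‖ = 1 := by rw [he0]; simp
  have hu : ‖u‖ = 1 := by rw [hu0]; simp
  have heu : zz e u = 0 := by
    unfold zz
    rw [he0, hu0, EuclideanSpace.inner_single_left]
    simp
  refine ⟨Room e, isSmoothDomain_room he, ?_⟩
  set U : Set (Euc (m + 2)) := Room e ∩ ({p | zz e p < 0} ∩ {p | rr e p < 9}) with hU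
  set D : Set (Euc (m + 2)) := Room e ∩ ({p | zz e p < 0} ∩ {p | 9 < rr e p}) with hD
  have hz1 : IsOpen {p : Euc (m + 2) | zz e p < 0} :=
    isOpen_lt (zz_contDiff e).continuous continuous_const
  have hr1 : IsOpen {p : Euc (m + 2) | rr e p < 9} :=
    isOpen_lt (rr_contDiff e).continuous continuous_const
  have hr2 : IsOpen {p : Euc (m + 2) | 9 < rr e p} :=
    isOpen_lt continuous_const (rr_contDiff e).continuous
  have hUo : IsOpen U := (isOpen_room e).inter (hz1.inter hr1)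
  have hDo : IsOpen D := (isOpen_room e).inter (hz1.inter hr2)
  have hUn : (-(1 / 2) : ℝ) • e ∈ U := by
    have hz : zz e ((-(1 / 2) : ℝ) • e) = -(1 / 2) := by rw [zz_smul, zz_self he, mul_one]
    have hr : rr e ((-(1 / 2) : ℝ) • e) = 0 := rr_self_smul he _
    refine ⟨⟨?_, Or.inr ?_⟩, ?_, ?_⟩
    · unfold El
      rw [hz, hr]
      norm_num
    · rw [Lo_of_small (by rw [hr]; norm_num)]
      unfold Wl
      rw [hz, hr]
      norm_num
    · show zz e _ < 0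
      rw [hz]
      norm_num
    · show rr e _ < 9
      rw [hr]
      norm_num
  set x₀ : Euc (m + 2) := (9 / 2 : ℝ) • u + (-(1 / 2) : ℝ) • e with hx₀
  have hz0 : zz e x₀ = -(1 / 2) := by
    rw [hx₀, zz_vert he, zz_smul, heu]
    norm_num
  have hr0 : rr e x₀ = 81 / 4 := by
    rw [hx₀, rr_vert he]
    unfold rr
    rw [zz_smul, heu, norm_smul, hu]
    norm_num
  have hx₀D : x₀ ∈ D := by
    have hEl : El e x₀ < 0 := by
      unfold El
      rw [hz0, hr0]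
      norm_num
    refine ⟨⟨hEl, Or.inr ?_⟩, ?_, ?_⟩
    · rw [Lo_of_large (by rw [hr0]; norm_num)]
      exact hEl
    · show zz e _ < 0
      rw [hz0]
      norm_num
    · show 9 < rr e _
      rw [hr0]
      norm_num
  have hdis : ∀ P ∈ U, ∀ t : ℝ, Disjoint (front (Room e) P t) D := by
    intro P hP t
    rw [Set.disjoint_left]
    rintro q ⟨v, _, hq⟩ hqD
    have hz : zz e q < 0 := hqD.2.1
    have hr : 9 < rr e q := hqD.2.2
    have hP1 : zz e P < 0 := hP.2.1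
    have hP2 : rr e P < 9 := hP.2.2
    exact absurd (photon_trap he hq (Or.inl ⟨hP1.le, hP2⟩) hz.le) (not_le.2 hr)
  refine ⟨U, fun p hp => hp.1, D, fun p hp => hp.1, hUo, hUo.measure_pos _ ⟨_, hUn⟩, hDo,
    ⟨_, hx₀D⟩, fun P hP => ⟨hdis P hP, ?_⟩⟩
  intro hdense
  obtain ⟨ε, hε, hball⟩ := Metric.isOpen_iff.1 hDo x₀ hx₀D
  obtain ⟨T, hT⟩ := hdense ε hε
  obtain ⟨q, hq, hdist⟩ := hT T le_rfl x₀ hx₀D.1
  exact Set.disjoint_left.1 (hdis P hP T) hq (hball (by rwa [Metric.mem_ball, dist_comm]))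

end Pool.Agent.H65PR
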