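import Pool.Agent.H800R2.Front

set_option autoImplicit false

open Set Filter Topology MeasureTheory

namespace Pool.Agent.H65PR

open Pool.Agent.H800R2
open scoped RealInnerProductSpace ContDiff

/-- cutoff: `0` for `u ≤ 49/4`, `1` for `u ≥ 16` -/
noncomputable def th (u : ℝ) : ℝ := Real.smoothTransition ((4 * u - 49) / 15)

theorem th_nonneg (u : ℝ) : 0 ≤ th u := Real.smoothTransition.nonneg _
theorem th_le_one (u : ℝ) : th u ≤ 1 := Real.smoothTransition.le_one _

theorem th_zero {u : ℝ} (h : u ≤ 49 / 4) : th u = 0 := by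
  apply Real.smoothTransition.zero_of_nonpos
  linarith

theorem th_one {u : ℝ} (h : 16 ≤ u) : th u = 1 := by
  apply Real.smoothTransition.one_of_one_le
  linarith

theorem th_contDiff : ContDiff ℝ ∞ th := by
  unfold th
  exact Real.smoothTransition.contDiff.comp (by fun_prop)

variable {n : ℕ}

/-- height -/
noncomputable def zz (e p : Euc n) : ℝ := ⟪e, p⟫

/-- square of the distance to the axis -/
noncomputable def rr (e p : Euc n) : ℝ := ‖p‖ ^ 2 - zz e p ^ 2

/-- the ellipsoid -/
noncomputable def El (e p : Euc n) : ℝ := rr e p / 25 + zz e p ^ 2 / 16 - 1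

/-- the wall near the focal sphere -/
noncomputable def Wl (e p : Euc n) : ℝ := -(rr e p - 9) ^ 2 / 81 - zz e p

/-- lower boundary -/
noncomputable def Lo (e p : Euc n) : ℝ := th (rr e p) * El e p + (1 - th (rr e p)) * Wl e p

/-- the room -/
def Room (e : Euc n) : Set (Euc n) := {p | El e p < 0 ∧ (0 < zz e p ∨ Lo e p < 0)}

theorem zz_contDiff (e : Euc n) : ContDiff ℝ ∞ (zz e) := contDiff_const.inner ℝ contDiff_id

theorem rr_contDiff (e : Euc n) : ContDiff ℝ ∞ (rr e) :=
  (contDiff_norm_sq ℝ).sub ((zz_contDiff e).pow 2)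

theorem El_contDiff (e : Euc n) : ContDiff ℝ ∞ (El e) := by
  have h1 := (((rr_contDiff e).div_const 25).add (((zz_contDiff e).pow 2).div_const 16)).sub
    (contDiff_const (c := (1 : ℝ)))
  exact h1

theorem Wl_contDiff (e : Euc n) : ContDiff ℝ ∞ (Wl e) := by
  have h1 := ((((rr_contDiff e).sub (contDiff_const (c := (9 : ℝ)))).pow 2).neg.div_const 81).sub
    (zz_contDiff e)
  exact h1

theorem Lo_contDiff (e : Euc n) : ContDiff ℝ ∞ (Lo e) := by
  have h0 : ContDiff ℝ ∞ (fun p : Euc n => th (rr e p)) := th_contDiff.comp (rr_contDiff e)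
  exact (h0.mul (El_contDiff e)).add ((contDiff_const.sub h0).mul (Wl_contDiff e))

theorem Lo_of_small {e p : Euc n} (h : rr e p ≤ 49 / 4) : Lo e p = Wl e p := by
  unfold Lo
  rw [th_zero h]
  ring

theorem Lo_of_large {e p : Euc n} (h : 16 ≤ rr e p) : Lo e p = El e p := by
  unfold Lo
  rw [th_one h]
  ring

theorem zz_add (e p q : Euc n) : zz e (p + q) = zz e p + zz e q := inner_add_right _ _ _
theorem zz_smul (e p : Euc n) (s : ℝ) : zz e (s • p) = s * zz e p := inner_smul_right _ _ _

section unit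
variable {e : Euc n} (he : ‖e‖ = 1)
include he

theorem zz_self : zz e e = 1 := by
  unfold zz
  rw [real_inner_self_eq_norm_sq, he]
  norm_num

theorem rr_nonneg (p : Euc n) : 0 ≤ rr e p := by
  unfold rr zz
  have h1 := abs_real_inner_le_norm e p
  rw [he, one_mul] at h1
  have h2 := sq_le_sq' (by linarith [neg_abs_le ⟪e, p⟫, norm_nonneg p]) ((le_abs_self _).trans h1)
  linarith

theorem rr_vert (p : Euc n) (s : ℝ) : rr e (p + s • e) = rr e p := by
  unfold rr
  rw [zz_add, zz_smul, zz_self he, norm_add_sq_real, norm_smul, he, inner_smul_right,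
    real_inner_comm]
  unfold zz
  rw [mul_one, Real.norm_eq_abs, sq_abs]
  ring

theorem zz_vert (p : Euc n) (s : ℝ) : zz e (p + s • e) = zz e p + s := by
  rw [zz_add, zz_smul, zz_self he, mul_one]

theorem El_neg_of_Lo {p : Euc n} (hy : zz e p ≤ 0) (h : Lo e p < 0) : El e p < 0 := by
  by_contra hcon
  push Not at hcon
  have h1 : 0 ≤ th (rr e p) * El e p := mul_nonneg (th_nonneg _) hcon
  have h2 : (1 - th (rr e p)) * Wl e p < 0 := by unfold Lo at h; linarith
  have h3 : 0 ≤ 1 - th (rr e p) := by linarith [th_le_one (rr e p)]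
  have h4 : Wl e p < 0 := by
    by_contra hc
    push Not at hc
    exact absurd h2 (not_lt.2 (mul_nonneg h3 hc))
  have h5 : rr e p < 16 := by
    by_contra hc
    push Not at hc
    rw [th_one hc] at h2
    simp at h2
  have h0 := rr_nonneg he p
  unfold Wl at h4
  unfold El at hcon
  have h6 : (rr e p - 9) ^ 2 ≤ 81 := by nlinarith
  have h7 : -1 < zz e p := by linarith
  have h8 : zz e p ^ 2 ≤ 1 := by nlinarith
  linarith

omit he in
theorem isOpen_room (e : Euc n) : IsOpen (Room e) := by
  have h1 : IsOpen {p : Euc n | El e p < 0} := isOpen_lt (El_contDiff e).continuous continuous_const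
  have h2 : IsOpen {p : Euc n | 0 < zz e p} := isOpen_lt continuous_const (zz_contDiff e).continuous
  have h3 : IsOpen {p : Euc n | Lo e p < 0} := isOpen_lt (Lo_contDiff e).continuous continuous_const
  exact h1.inter (h2.union h3)

theorem isBounded_room : Bornology.IsBounded (Room e) := by
  refine (Metric.isBounded_ball (x := (0 : Euc n)) (r := 7)).subset ?_
  intro p hp
  have h := hp.1
  unfold El at h
  have h0 := rr_nonneg he p
  have h1 : ‖p‖ ^ 2 = rr e p + zz e p ^ 2 := by unfold rr; ring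
  rw [mem_ball_zero_iff]
  by_contra hc
  push Not at hc
  nlinarith [sq_nonneg (zz e p), norm_nonneg p]

omit he in
/-- points above a point of the lower part -/
theorem Lo_mono {p q : Euc n} (h0 : rr e p = rr e q) (h1 : zz e p ≤ zz e q) (h2 : zz e q ≤ 0) :
    Lo e q ≤ Lo e p := by
  unfold Lo
  rw [h0]
  have h3 : El e q ≤ El e p := by
    unfold El
    rw [h0]
    nlinarith
  have h4 : Wl e q ≤ Wl e p := by
    unfold Wl
    rw [h0]
    linarith
  have h5 := th_nonneg (rr e q)
  have h6 := th_le_one (rr e q)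
  nlinarith [mul_le_mul_of_nonneg_left h3 h5, mul_le_mul_of_nonneg_left h4 (sub_nonneg.2 h6)]

omit he in
/-- upper half of the ellipsoid -/
def Up (e : Euc n) : Set (Euc n) := {p | El e p < 0 ∧ 0 < zz e p}

omit he in
theorem Up_sub : Up e ⊆ Room e := fun _ hp => ⟨hp.1, Or.inl hp.2⟩

omit he in
theorem El_eq (p : Euc n) : El e p = ‖p‖ ^ 2 / 25 + zz e p ^ 2 * (9 / 400) - 1 := by
  unfold El rr
  ring

omit he in
theorem convex_El : Convex ℝ {p : Euc n | El e p < 0} := by
  intro p hp q hq a b ha hb hab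
  simp only [mem_ofPred_eq, El_eq] at *
  have hb' : b = 1 - a := by linarith
  have h1 : ‖a • p + b • q‖ ^ 2 ≤ a * ‖p‖ ^ 2 + b * ‖q‖ ^ 2 := by
    have h0 : ‖a • p + b • q‖ ≤ a * ‖p‖ + b * ‖q‖ := by
      refine (norm_add_le _ _).trans (le_of_eq ?_)
      rw [norm_smul, norm_smul, Real.norm_of_nonneg ha, Real.norm_of_nonneg hb]
    have h0' : ‖a • p + b • q‖ ^ 2 ≤ (a * ‖p‖ + b * ‖q‖) ^ 2 :=
      pow_le_pow_left₀ (norm_nonneg _) h0 2
    refine h0'.trans ?_
    subst hb'
    nlinarith [mul_nonneg (mul_nonneg ha hb) (sq_nonneg (‖p‖ - ‖q‖))]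
  have h2 : zz e (a • p + b • q) ^ 2 ≤ a * zz e p ^ 2 + b * zz e q ^ 2 := by
    rw [zz_add, zz_smul, zz_smul]
    subst hb'
    nlinarith [mul_nonneg (mul_nonneg ha hb) (sq_nonneg (zz e p - zz e q))]
  have h3 : a * (‖p‖ ^ 2 / 25 + zz e p ^ 2 * (9 / 400) - 1) +
      b * (‖q‖ ^ 2 / 25 + zz e q ^ 2 * (9 / 400) - 1) < 0 := by
    rcases ha.eq_or_lt with h | h
    · rw [← h] at hab ⊢
      have : b = 1 := by linarith
      rw [this]
      linarith
    · have h4 : a * (‖p‖ ^ 2 / 25 + zz e p ^ 2 * (9 / 400) - 1) < 0 := mul_neg_of_pos_of_neg h hp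
      have h5 : b * (‖q‖ ^ 2 / 25 + zz e q ^ 2 * (9 / 400) - 1) ≤ 0 :=
        mul_nonpos_of_nonneg_of_nonpos hb hq.le
      linarith
  nlinarith

omit he in
theorem convex_Up : Convex ℝ (Up e) := by
  have h2 : Convex ℝ {p : Euc n | 0 < zz e p} := by
    intro p hp q hq a b ha hb hab
    simp only [mem_ofPred_eq, zz_add, zz_smul] at *
    rcases ha.eq_or_lt with h | h
    · rw [← h] at hab ⊢
      have : b = 1 := by linarith
      rw [this]
      linarith
    · have := mul_pos h hp
      have := mul_nonneg hb hq.le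
      linarith
  exact convex_El.inter h2

theorem rr_self_smul (s : ℝ) : rr e (s • e) = 0 := by
  have h := rr_vert he 0 s
  rw [zero_add] at h
  rw [h]
  unfold rr zz
  simp

theorem isConnected_room : IsConnected (Room e) := by
  have hb : (1 : ℝ) • e ∈ Up e := by
    constructor
    · show rr e ((1 : ℝ) • e) / 25 + zz e ((1 : ℝ) • e) ^ 2 / 16 - 1 < 0
      rw [rr_self_smul he, zz_smul, zz_self he]
      norm_num
    · show 0 < zz e ((1 : ℝ) • e)
      rw [zz_smul, zz_self he]
      norm_num
  refine ⟨⟨_, Up_sub hb⟩, ?_⟩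
  refine isPreconnected_of_forall ((1 : ℝ) • e) ?_
  intro p hp
  by_cases hy : 0 < zz e p
  · exact ⟨Up e, Up_sub, hb, ⟨hp.1, hy⟩, convex_Up.isPreconnected⟩
  · push Not at hy
    have hLo : Lo e p < 0 := hp.2.resolve_left (not_lt.2 hy)
    have hE0 : rr e p / 25 < 1 := by
      have := hp.1
      unfold El at this
      nlinarith [sq_nonneg (zz e p)]
    obtain ⟨ε, hε0, hε⟩ : ∃ ε : ℝ, 0 < ε ∧ rr e p / 25 + ε ^ 2 / 16 < 1 := by
      have h1 : 0 < min 1 (1 - rr e p / 25) := lt_min one_pos (by linarith)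
      refine ⟨min 1 (1 - rr e p / 25), h1, ?_⟩
      have h2 := min_le_left 1 (1 - rr e p / 25)
      have h3 := min_le_right 1 (1 - rr e p / 25)
      nlinarith
    set q : Euc n := p + (ε - zz e p) • e with hq
    have hqz : zz e q = ε := by rw [hq, zz_vert he]; ring
    have hqr : rr e q = rr e p := by rw [hq, rr_vert he]
    have hqU : q ∈ Up e := by
      constructor
      · show rr e q / 25 + zz e q ^ 2 / 16 - 1 < 0
        rw [hqr, hqz]
        linarith
      · show 0 < zz e q
        rw [hqz]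
        exact hε0
    refine ⟨segment ℝ p q ∪ Up e, ?_, Or.inr hb, Or.inl (left_mem_segment ℝ p q), ?_⟩
    · rintro r (hr | hr)
      · obtain ⟨a, b, ha, hb', hab, rfl⟩ := hr
        have hform : a • p + b • q = p + (b * (ε - zz e p)) • e := by
          rw [hq, smul_add, ← add_assoc, ← add_smul, hab, one_smul, smul_smul]
        have hEl : El e (a • p + b • q) < 0 := convex_El hp.1 hqU.1 ha hb' hab
        refine ⟨hEl, ?_⟩
        by_cases h1 : 0 < zz e (a • p + b • q)
        · exact Or.inl h1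
        · push Not at h1
          right
          refine lt_of_le_of_lt (Lo_mono ?_ ?_ h1) hLo
          · rw [hform, rr_vert he]
          · rw [hform, zz_vert he]
            have : 0 ≤ b * (ε - zz e p) := mul_nonneg hb' (by linarith)
            linarith
      · exact Up_sub hr
    · exact IsPreconnected.union q (right_mem_segment ℝ p q) hqU (convex_segment p q).isPreconnected
        convex_Up.isPreconnected

/-! ### the boundary -/

omit he in
theorem closure_room_El {p : Euc n} (h : p ∈ closure (Room e)) : El e p ≤ 0 := by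
  have h1 : IsClosed {p : Euc n | El e p ≤ 0} := isClosed_le (El_contDiff e).continuous continuous_const
  exact h1.closure_subset_iff.2 (fun q hq => le_of_lt hq.1) h

omit he in
theorem closure_room_Lo {p : Euc n} (h : p ∈ closure (Room e)) (hy : zz e p < 0) : Lo e p ≤ 0 := by
  have h10 : IsClosed {p : Euc n | 0 ≤ zz e p} := isClosed_le continuous_const (zz_contDiff e).continuous
  have h11 : IsClosed {p : Euc n | Lo e p ≤ 0} := isClosed_le (Lo_contDiff e).continuous continuous_const
  have h1 : IsClosed ({p : Euc n | 0 ≤ zz e p} ∪ {p : Euc n | Lo e p ≤ 0}) := h10.union h11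
  have h2 := h1.closure_subset_iff.2 (fun q hq => ?_) h
  · exact h2.resolve_left (not_le.2 hy)
  · rcases hq.2 with h | h
    · exact Or.inl h.le
    · exact Or.inr h.le

omit he in
/-- derivative from a partial derivative -/
theorem gradient_ne {F : Euc n → ℝ} (hF : ContDiff ℝ ∞ F) {p : Euc n} {c : ℝ}
    (h : HasDerivAt (fun s : ℝ => F (p + s • e)) c 0) (hc : c ≠ 0) :
    gradient F p ≠ 0 := by
  intro h0
  have hd : HasFDerivAt F (fderiv ℝ F p) p :=
    (hF.differentiable (by simp)).differentiableAt.hasFDerivAt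
  have hl : HasDerivAt (fun s : ℝ => p + s • e) e 0 := by
    simpa using ((hasDerivAt_id (0 : ℝ)).smul_const e).const_add p
  have h2 : HasDerivAt (fun s : ℝ => F (p + s • e)) (fderiv ℝ F p e) 0 :=
    HasFDerivAt.comp_hasDerivAt (x := (0 : ℝ)) (f := fun s : ℝ => p + s • e)
      (l := F) (l' := fderiv ℝ F p) (by simpa using hd) hl
  have h3 := h.unique h2
  have h4 : fderiv ℝ F p = 0 := by
    unfold gradient at h0
    simpa using h0
  rw [h4] at h3
  exact hc (by simpa using h3)

theorem gradient_Lo_ne {p : Euc n} (hy : zz e p < 0) : gradient (Lo e) p ≠ 0 := by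
  have h1 : HasDerivAt (fun s : ℝ => Lo e (p + s • e))
      (th (rr e p) * (zz e p / 8) - (1 - th (rr e p))) 0 := by
    have h2 : (fun s : ℝ => Lo e (p + s • e)) = fun s : ℝ =>
        th (rr e p) * (rr e p / 25 + (zz e p + s) ^ 2 / 16 - 1) +
          (1 - th (rr e p)) * (-(rr e p - 9) ^ 2 / 81 - (zz e p + s)) := by
      funext s
      unfold Lo El Wl
      rw [rr_vert he, zz_vert he]
    rw [h2]
    have h3 : HasDerivAt (fun s : ℝ => zz e p + s) 1 0 := (hasDerivAt_id (0 : ℝ)).const_add (zz e p)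
    have h4 := (((h3.pow 2).div_const 16).const_add (rr e p / 25)).sub_const 1
    have h5 := (h4.const_mul (th (rr e p))).add
      ((h3.const_sub (-(rr e p - 9) ^ 2 / 81)).const_mul (1 - th (rr e p)))
    refine (h5.congr_deriv ?_)
    simp
    ring
  refine gradient_ne (Lo_contDiff e) h1 ?_
  have h2 := th_nonneg (rr e p)
  have h3 := th_le_one (rr e p)
  by_contra hc
  have h4 : th (rr e p) * (zz e p / 8) ≤ 0 := mul_nonpos_of_nonneg_of_nonpos h2 (by linarith)
  have h5 : th (rr e p) = 1 := by linarith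
  rw [h5] at hc
  linarith

omit he in
theorem hasFDerivAt_zz (p : Euc n) : HasFDerivAt (zz e) (innerSL ℝ e) p :=
  (innerSL ℝ e).hasFDerivAt

omit he in
theorem hasFDerivAt_rr (p : Euc n) :
    HasFDerivAt (rr e) ((2 : ℝ) • innerSL ℝ p - (2 * zz e p) • innerSL ℝ e) p := by
  have h1 := (hasStrictFDerivAt_norm_sq p).hasFDerivAt.sub ((hasFDerivAt_zz (e := e) p).pow 2)
  refine h1.congr_fderiv ?_
  ext w
  simp

omit he in
theorem gradient_El (p : Euc n) :
    gradient (El e) p = (2 / 25 : ℝ) • p + (zz e p * (9 / 200)) • e := by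
  refine HasGradientAt.gradient ?_
  rw [hasGradientAt_iff_hasFDerivAt]
  have h1 := (((hasFDerivAt_rr (e := e) p).const_mul (1 / 25 : ℝ)).add
    (((hasFDerivAt_zz (e := e) p).pow 2).const_mul (1 / 16 : ℝ))).sub_const 1
  have h3 : El e = fun q : Euc n => (1 / 25 : ℝ) * rr e q + (1 / 16 : ℝ) * zz e q ^ 2 - 1 := by
    funext q
    unfold El
    ring
  rw [h3]
  refine h1.congr_fderiv ?_
  ext w
  simp [inner_add_left, inner_smul_left]
  ring

omit he in
theorem gradient_Wl {p : Euc n} (hp : rr e p = 9) : gradient (Wl e) p = -e := by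
  refine HasGradientAt.gradient ?_
  rw [hasGradientAt_iff_hasFDerivAt]
  have h2 := ((((hasFDerivAt_rr (e := e) p).sub_const 9).pow 2).const_mul (-1 / 81 : ℝ)).sub
    (hasFDerivAt_zz (e := e) p)
  have h3 : Wl e = fun q : Euc n => (-1 / 81 : ℝ) * (rr e q - 9) ^ 2 - zz e q := by
    funext q
    unfold Wl
    ring
  rw [h3]
  refine h2.congr_fderiv ?_
  ext w
  simp [hp, inner_neg_left]

theorem zz_gradient_El (p : Euc n) : zz e (gradient (El e) p) = zz e p / 8 := by
  rw [gradient_El, zz_add, zz_smul, zz_smul, zz_self he]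
  ring

theorem isDef_El_up {p : Euc n} (hy : 0 < zz e p) : IsDefFun (Room e) p (El e) := by
  refine ⟨El_contDiff e, ?_, ?_⟩
  · intro h
    have h1 := zz_gradient_El he p
    rw [h] at h1
    have h2 : zz e (0 : Euc n) = 0 := inner_zero_right _
    linarith
  · have h1 : ∀ᶠ q : Euc n in 𝓝 p, 0 < zz e q :=
      (zz_contDiff e).continuous.continuousAt.eventually (lt_mem_nhds hy)
    filter_upwards [h1] with q hq
    exact ⟨fun h => h.1, fun h => ⟨h, Or.inl hq⟩⟩

theorem isDef_Lo {p : Euc n} (hy : zz e p < 0) : IsDefFun (Room e) p (Lo e) := by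
  refine ⟨Lo_contDiff e, gradient_Lo_ne he hy, ?_⟩
  have h1 : ∀ᶠ q : Euc n in 𝓝 p, zz e q < 0 :=
    (zz_contDiff e).continuous.continuousAt.eventually (gt_mem_nhds hy)
  filter_upwards [h1] with q hq
  exact ⟨fun h => h.2.resolve_left (not_lt.2 hq.le), fun h => ⟨El_neg_of_Lo he hq.le h, Or.inr h⟩⟩

omit he in
theorem isDef_El_side {p : Euc n} (hx : rr e p = 25) (hy : zz e p = 0) :
    IsDefFun (Room e) p (El e) := by
  refine ⟨El_contDiff e, ?_, ?_⟩
  · rw [gradient_El, hy]
    intro h
    have h1 : p = 0 := by simpa using h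
    rw [h1] at hx
    unfold rr zz at hx
    norm_num at hx
  · have h1 : ∀ᶠ q : Euc n in 𝓝 p, 16 < rr e q :=
      (rr_contDiff e).continuous.continuousAt.eventually (lt_mem_nhds (by rw [hx]; norm_num))
    filter_upwards [h1] with q hq
    refine ⟨fun h => h.1, fun h => ⟨h, Or.inr ?_⟩⟩
    rw [Lo_of_large hq.le]
    exact h

theorem isDef_Wl {p : Euc n} (hx : rr e p = 9) (hy : zz e p = 0) : IsDefFun (Room e) p (Wl e) := by
  refine ⟨Wl_contDiff e, ?_, ?_⟩
  · rw [gradient_Wl hx]
    intro h
    have h1 : e = 0 := by simpa using h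
    rw [h1] at he
    simp at he
  · have h1 : ∀ᶠ q : Euc n in 𝓝 p, rr e q < 49 / 4 :=
      (rr_contDiff e).continuous.continuousAt.eventually (gt_mem_nhds (by rw [hx]; norm_num))
    have h2 : ∀ᶠ q : Euc n in 𝓝 p, El e q < 0 := by
      refine (El_contDiff e).continuous.continuousAt.eventually (gt_mem_nhds ?_)
      unfold El
      rw [hx, hy]
      norm_num
    filter_upwards [h1, h2] with q hq hq2
    constructor
    · intro h
      rcases h.2 with h3 | h3
      · unfold Wl
        have := sq_nonneg (rr e q - 9)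
        linarith
      · rwa [Lo_of_small hq.le] at h3
    · intro h
      refine ⟨hq2, Or.inr ?_⟩
      rwa [Lo_of_small hq.le]

theorem frontier_axis {p : Euc n} (hp : p ∈ frontier (Room e)) (hy : zz e p = 0) :
    rr e p = 9 ∨ rr e p = 25 := by
  rw [(isOpen_room e).frontier_eq] at hp
  have hE := closure_room_El hp.1
  have hL : 0 ≤ Lo e p := by
    by_contra hc
    push Not at hc
    exact hp.2 ⟨El_neg_of_Lo he hy.le hc, Or.inr hc⟩
  have h1 := th_nonneg (rr e p)
  have h2 := th_le_one (rr e p)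
  have h3 : th (rr e p) * El e p ≤ 0 := mul_nonpos_of_nonneg_of_nonpos h1 hE
  have hW : Wl e p ≤ 0 := by
    unfold Wl
    rw [hy]
    have := sq_nonneg (rr e p - 9)
    linarith
  have h4 : (1 - th (rr e p)) * Wl e p ≤ 0 := mul_nonpos_of_nonneg_of_nonpos (by linarith) hW
  unfold Lo at hL
  have h5 : th (rr e p) * El e p = 0 := by linarith
  have h6 : (1 - th (rr e p)) * Wl e p = 0 := by linarith
  rcases mul_eq_zero.1 h5 with h | h
  · left
    rw [h] at h6
    have h7 : Wl e p = 0 := by linarith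
    unfold Wl at h7
    rw [hy] at h7
    have h8 : (rr e p - 9) ^ 2 = 0 := by linarith
    have h9 := pow_eq_zero_iff (two_ne_zero) |>.1 h8
    linarith
  · right
    unfold El at h
    rw [hy] at h
    linarith

theorem isSmoothDomain_room : IsSmoothDomain (Room e) where
  isOpen := isOpen_room e
  isConnected := isConnected_room he
  isBounded := isBounded_room he
  smooth := by
    intro p hp
    rcases lt_trichotomy (zz e p) 0 with hy | hy | hy
    · exact ⟨_, isDef_Lo he hy⟩
    · rcases frontier_axis he hp hy with h | h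
      · exact ⟨_, isDef_Wl he h hy⟩
      · exact ⟨_, isDef_El_side h hy⟩
    · exact ⟨_, isDef_El_up he hy⟩

end unit

end Pool.Agent.H65PR
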