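import Pool.Agent.H65PR.Room

set_option autoImplicit false

open Set Filter Topology MeasureTheory

namespace Pool.Agent.H65PR

open Pool.Agent.H800R2
open scoped RealInnerProductSpace ContDiff

variable {n : ℕ}

/-- inner product of the horizontal parts -/
noncomputable def dd (e p v : Euc n) : ℝ := ⟪p, v⟫ - zz e p * zz e v

/-- square of the norm of `z(v) p' - z(p) v'`, where `p', v'` are the horizontal parts -/
noncomputable def QQ (e p v : Euc n) : ℝ :=
  rr e p * zz e v ^ 2 - 2 * zz e p * zz e v * dd e p v + zz e p ^ 2 * rr e v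

/-- the invariant set of the phase space -/
def Good (e p v : Euc n) : Prop :=
  (zz e p ≤ 0 ∧ rr e p < 9) ∨
    ((0 < zz e p ∨ (zz e p = 0 ∧ 0 < zz e v)) ∧ QQ e p v ≤ 9 * zz e v ^ 2)

theorem zz_line (e p v : Euc n) (s : ℝ) : zz e (p + s • v) = zz e p + s * zz e v := by
  rw [zz_add, zz_smul]

theorem rr_line (e p v : Euc n) (s : ℝ) :
    rr e (p + s • v) = rr e p + 2 * s * dd e p v + s ^ 2 * rr e v := by
  unfold rr dd
  rw [zz_line, norm_add_sq_real, norm_smul, inner_smul_right, Real.norm_eq_abs, mul_pow, sq_abs]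
  ring

theorem dd_line (e p v : Euc n) (s : ℝ) : dd e (p + s • v) v = dd e p v + s * rr e v := by
  unfold rr dd
  rw [zz_line, inner_add_left, real_inner_smul_left, real_inner_self_eq_norm_sq]
  ring

theorem QQ_line (e p v : Euc n) (s : ℝ) : QQ e (p + s • v) v = QQ e p v := by
  unfold QQ
  rw [zz_line, rr_line, dd_line]
  ring

theorem QQ_zero {e p v : Euc n} (h : zz e p = 0) : QQ e p v = rr e p * zz e v ^ 2 := by
  unfold QQ
  rw [h]
  ring

theorem not_mem_wall {e p : Euc n} (hx : rr e p = 9) (hy : zz e p ≤ 0) : p ∉ Room e := by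
  intro h
  rcases h.2 with h1 | h1
  · linarith
  · rw [Lo_of_small (by rw [hx]; norm_num)] at h1
    unfold Wl at h1
    rw [hx] at h1
    linarith

/-- crossing of the wall -/
theorem cross {e p v : Euc n} {s₁ s₂ : ℝ} (h : s₁ ≤ s₂) (h1 : rr e (p + s₁ • v) < 9)
    (h2 : 9 ≤ rr e (p + s₂ • v)) (y1 : zz e (p + s₁ • v) ≤ 0) (y2 : zz e (p + s₂ • v) ≤ 0) :
    ∃ s ∈ Ioc s₁ s₂, rr e (p + s • v) = 9 ∧ zz e (p + s • v) ≤ 0 := by
  have hc : ContinuousOn (fun s : ℝ => rr e (p + s • v)) (Icc s₁ s₂) := by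
    have : Continuous (fun s : ℝ => rr e (p + s • v)) :=
      (rr_contDiff e).continuous.comp (by fun_prop)
    exact this.continuousOn
  obtain ⟨s, hs, hs9⟩ := intermediate_value_Icc h hc ⟨h1.le, h2⟩
  have hs9' : rr e (p + s • v) = 9 := hs9
  refine ⟨s, ⟨lt_of_le_of_ne hs.1 ?_, hs.2⟩, hs9', ?_⟩
  · rintro rfl
    linarith
  · rw [zz_line] at *
    rcases le_total (zz e v) 0 with hv | hv
    · nlinarith [hs.1]
    · nlinarith [hs.2]

/-- landing in the lower part -/
theorem landing {e p v : Euc n} (hg : Good e p v) {τ : ℝ} (hτ : 0 ≤ τ)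
    (hin : ∀ s ∈ Ioo 0 τ, p + s • v ∈ Room e) (hy : zz e (p + τ • v) ≤ 0) :
    rr e (p + τ • v) ≤ 9 := by
  by_contra hcon
  push Not at hcon
  rcases hg with ⟨h1, h2⟩ | ⟨h1, h2⟩
  · obtain ⟨s, hs, hs9, hsy⟩ := cross (e := e) (p := p) (v := v) hτ (by simpa using h2) hcon.le
      (by simpa using h1) hy
    rcases hs.2.eq_or_lt with h | h
    · rw [h] at hs9
      linarith
    · exact not_mem_wall hs9 hsy (hin s ⟨hs.1, h⟩)
  · rcases h1 with h1 | ⟨h1, h1'⟩
    · have hτv : zz e p + τ * zz e v ≤ 0 := by rwa [zz_line] at hy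
      have hv : zz e v < 0 := by
        by_contra hc
        push Not at hc
        have := mul_nonneg hτ hc
        linarith
      set s₀ := zz e p / (-zz e v) with hs₀
      have hv' : 0 < -zz e v := by linarith
      have hs₀pos : 0 < s₀ := div_pos h1 hv'
      have hs₀le : s₀ ≤ τ := by
        rw [hs₀, div_le_iff₀ hv']
        linarith
      have hc1 : zz e (p + s₀ • v) = 0 := by
        have h5 : s₀ * (-zz e v) = zz e p := div_mul_cancel₀ _ hv'.ne'
        rw [zz_line]
        linarith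
      have hc2 : rr e (p + s₀ • v) ≤ 9 := by
        rw [← QQ_line e p v s₀, QQ_zero hc1] at h2
        exact le_of_mul_le_mul_right h2 (by have := mul_pos hv' hv'; nlinarith)
      rcases hc2.eq_or_lt with h | h
      · -- through the focal sphere
        have hnot : p + s₀ • v ∉ Room e := not_mem_wall h hc1.le
        rcases hs₀le.eq_or_lt with h3 | h3
        · rw [← h3] at hcon
          linarith
        · exact hnot (hin s₀ ⟨hs₀pos, h3⟩)
      · obtain ⟨s, hs, hs9, hsy⟩ := cross (e := e) (p := p) (v := v) hs₀le h hcon.le hc1.le hy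
        rcases hs.2.eq_or_lt with h3 | h3
        · rw [h3] at hs9
          linarith
        · exact not_mem_wall hs9 hsy (hin s ⟨hs₀pos.trans hs.1, h3⟩)
    · have hτv : zz e p + τ * zz e v ≤ 0 := by rwa [zz_line] at hy
      have hτ0 : τ = 0 := by
        by_contra hc
        have : 0 < τ := lt_of_le_of_ne hτ (Ne.symm hc)
        have := mul_pos this h1'
        linarith
      rw [hτ0, zero_smul, add_zero] at hcon
      rw [QQ_zero h1] at h2
      have h4 : rr e p ≤ 9 := le_of_mul_le_mul_right h2 (by positivity)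
      linarith

/-- rising to the upper part -/
theorem rising {e p v : Euc n} (hg : Good e p v) {τ : ℝ} (hτ : 0 ≤ τ)
    (hin : ∀ s ∈ Ioo 0 τ, p + s • v ∈ Room e) (hy : 0 < zz e (p + τ • v)) :
    QQ e p v ≤ 9 * zz e v ^ 2 := by
  rcases hg with ⟨h1, h2⟩ | ⟨_, h2⟩
  · have hτv : 0 < zz e p + τ * zz e v := by rwa [zz_line] at hy
    have hv : 0 < zz e v := by
      by_contra hc
      push Not at hc
      have := mul_nonpos_of_nonneg_of_nonpos hτ hc
      linarith
    set s₀ := -zz e p / zz e v with hs₀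
    have hs₀nn : 0 ≤ s₀ := div_nonneg (by linarith) hv.le
    have hs₀lt : s₀ < τ := by
      rw [hs₀, div_lt_iff₀ hv]
      linarith
    have hc1 : zz e (p + s₀ • v) = 0 := by
      have h5 : s₀ * zz e v = -zz e p := div_mul_cancel₀ _ hv.ne'
      rw [zz_line]
      linarith
    have hc2 : rr e (p + s₀ • v) ≤ 9 := by
      by_contra hc
      push Not at hc
      obtain ⟨s, hs, hs9, hsy⟩ := cross (e := e) (p := p) (v := v) hs₀nn (by simpa using h2)
        hc.le (by simpa using h1) hc1.le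
      exact not_mem_wall hs9 hsy (hin s ⟨hs.1, lt_of_le_of_lt hs.2 hs₀lt⟩)
    rw [← QQ_line e p v s₀, QQ_zero hc1]
    exact mul_le_mul_of_nonneg_right hc2 (sq_nonneg _)
  · exact h2

/-- the conserved quantity of the ellipsoid -/
theorem ell_id {a b c d S : ℝ} (h : a / 25 + b ^ 2 / 16 - 1 = 0) :
    a * c ^ 2 - 2 * b * c * d + b ^ 2 * S - 9 * c ^ 2 =
      16 * (S + c ^ 2) - 400 * (d / 25 + b * c / 16) ^ 2 - 16 / 25 * (a * S - d ^ 2) := by
  linear_combination (25 * c ^ 2 + 16 * S) * h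

/-- reflection at the ellipsoid -/
theorem reflect_ell {e : Euc n} (he : ‖e‖ = 1) {r v ν : Euc n} (hE : El e r = 0)
    (hν : IsOuterNormal (Room e) r ν) (hfr : r ∈ frontier (Room e)) (hy : 0 < zz e r)
    (h : QQ e r v ≤ 9 * zz e v ^ 2) :
    QQ e r (v - (2 * ⟪v, ν⟫) • ν) ≤ 9 * zz e (v - (2 * ⟪v, ν⟫) • ν) ^ 2 := by
  obtain ⟨F, hF, hνF⟩ := hν
  rw [hF.normal_unique (isDef_El_up he hy) (isOpen_room e) hfr] at hνF
  set g : Euc n := gradient (El e) r with hg
  have hg0 : g ≠ 0 := (isDef_El_up he hy).2.1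
  have hgn : 0 < ‖g‖ := norm_pos_iff.2 hg0
  set l := ‖g‖⁻¹ with hl
  have hl0 : 0 < l := inv_pos.2 hgn
  have hν1 : ‖ν‖ = 1 := by
    rw [hνF, norm_smul, norm_inv, norm_norm, inv_mul_cancel₀ hgn.ne']
  have hgdef : g = (2 / 25 : ℝ) • r + (zz e r * (9 / 200)) • e := gradient_El r
  have hνg : ν = (l * (2 / 25)) • r + (l * (zz e r * (9 / 200))) • e := by
    rw [hνF, hgdef, smul_add, smul_smul, smul_smul]
  set w := ⟪v, ν⟫ with hw
  set a := rr e r with ha
  set b := zz e r with hb
  set c := zz e v with hc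
  set d := dd e r v with hd
  set S := rr e v with hS
  have hrr : ‖r‖ ^ 2 = a + b ^ 2 := by rw [ha, hb]; unfold rr; ring
  have hvv : ‖v‖ ^ 2 = S + c ^ 2 := by rw [hS, hc]; unfold rr; ring
  have hrv : ⟪r, v⟫ = d + b * c := by rw [hd]; unfold dd; ring
  have hE' : a / 25 + b ^ 2 / 16 - 1 = 0 := hE
  -- the height of the normal
  have hνz : zz e ν = l * (b / 8) := by
    rw [hνg, zz_add, zz_smul, zz_smul, zz_self he]
    ring
  have hrν : ⟪r, ν⟫ = l * (2 * a / 25 + b ^ 2 / 8) := by
    rw [hνg, inner_add_right, real_inner_smul_right, real_inner_smul_right,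
      real_inner_self_eq_norm_sq, hrr]
    have : ⟪r, e⟫ = b := by rw [real_inner_comm]; rfl
    rw [this]
    ring
  have hw1 : w = 2 * l * (d / 25 + b * c / 16) := by
    rw [hw, hνg, inner_add_right, real_inner_smul_right, real_inner_smul_right]
    have h1 : ⟪v, e⟫ = c := by rw [real_inner_comm]; rfl
    have h2 : ⟪v, r⟫ = d + b * c := by rw [real_inner_comm]; exact hrv
    rw [h1, h2]
    ring
  -- the new quantities
  set v' := v - (2 * w) • ν with hv'
  have hv'2 : v' = v + (-(2 * w)) • ν := by rw [hv', neg_smul, sub_eq_add_neg]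
  have hc' : zz e v' = c - 2 * w * (l * (b / 8)) := by
    rw [hv'2, zz_line, hνz]
    ring
  have hn' : ‖v'‖ ^ 2 = ‖v‖ ^ 2 := by
    rw [hv'2, norm_add_sq_real, norm_smul, real_inner_smul_right, hν1, ← hw, mul_one,
      Real.norm_eq_abs, sq_abs]
    ring
  have hS' : rr e v' = S + c ^ 2 - (zz e v') ^ 2 := by
    unfold rr
    rw [hn', hvv]
  have hin' : ⟪r, v'⟫ = d + b * c - 2 * w * (l * (2 * a / 25 + b ^ 2 / 8)) := by
    rw [hv'2, inner_add_right, real_inner_smul_right, hrν, hrv]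
    ring
  have hd' : dd e r v' = d - 4 * w * l / 25 * a := by
    unfold dd
    rw [hin', ← hb, hc']
    ring
  -- the norm of the normal
  have hν2 : l ^ 2 * (4 * a / 625 + b ^ 2 / 64) = 1 := by
    have h1 : ‖ν‖ ^ 2 = 1 := by rw [hν1]; norm_num
    rw [← real_inner_self_eq_norm_sq] at h1
    have h2 : ⟪ν, ν⟫ = l * (2 / 25) * ⟪r, ν⟫ + l * (b * (9 / 200)) * zz e ν := by
      conv_lhs => rw [hνg]
      rw [inner_add_left, real_inner_smul_left, real_inner_smul_left]
      rw [← hνg]
      rfl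
    rw [h2, hrν, hνz] at h1
    rw [← h1]
    ring
  have i1 := ell_id (c := c) (d := d) (S := S) hE'
  have i2 := ell_id (c := zz e v') (d := dd e r v') (S := rr e v') hE'
  have j1 : rr e v' + zz e v' ^ 2 = S + c ^ 2 := by rw [hS']; ring
  have k1 : dd e r v' / 25 + b * zz e v' / 16 = -(d / 25 + b * c / 16) := by
    have h1 : dd e r v' / 25 + b * zz e v' / 16 =
        (d / 25 + b * c / 16) - w * l * (4 * a / 625 + b ^ 2 / 64) := by
      rw [hd', hc']
      ring
    rw [h1, hw1]
    have h2 : 2 * l * (d / 25 + b * c / 16) * l * (4 * a / 625 + b ^ 2 / 64) =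
        2 * (d / 25 + b * c / 16) * (l ^ 2 * (4 * a / 625 + b ^ 2 / 64)) := by ring
    rw [h2, hν2]
    ring
  have k2 : a * rr e v' - dd e r v' ^ 2 = a * S - d ^ 2 := by
    rw [hS', hc', hd']
    have h2 : w * (l ^ 2 * (4 * a / 625 + b ^ 2 / 64)) = w := by rw [hν2, mul_one]
    have h3 : w = 2 * l * (d / 25 + b * c / 16) := hw1
    -- S' = S - 2κ d + κ² a
    have h4 : S + c ^ 2 - (c - 2 * w * (l * (b / 8))) ^ 2 =
        S - 2 * (4 * w * l / 25) * d + (4 * w * l / 25) ^ 2 * a := by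
      have h5 : S + c ^ 2 - (c - 2 * w * (l * (b / 8))) ^ 2 -
          (S - 2 * (4 * w * l / 25) * d + (4 * w * l / 25) ^ 2 * a) =
          4 * w * (2 * l * (d / 25 + b * c / 16)) -
            4 * w * (w * (l ^ 2 * (4 * a / 625 + b ^ 2 / 64))) := by ring
      rw [h2, ← h3] at h5
      linarith
    rw [h4]
    ring
  have hQ' : QQ e r v' = a * zz e v' ^ 2 - 2 * b * zz e v' * dd e r v' + b ^ 2 * rr e v' := rfl
  have hQ : QQ e r v = a * c ^ 2 - 2 * b * c * d + b ^ 2 * S := rfl
  rw [j1, k1, k2] at i2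
  rw [hQ] at h
  rw [hQ']
  have : (-(d / 25 + b * c / 16)) ^ 2 = (d / 25 + b * c / 16) ^ 2 := by ring
  rw [this] at i2
  linarith

/-- the bounce keeps the invariant set -/
theorem good_bounce {e : Euc n} (he : ‖e‖ = 1) {p v ν : Euc n} {τ : ℝ} (hg : Good e p v)
    (hτ : 0 < τ) (hin : ∀ s ∈ Ioo 0 τ, p + s • v ∈ Room e) (hb : p + τ • v ∈ frontier (Room e))
    (hν : IsOuterNormal (Room e) (p + τ • v) ν) (hv : 0 < ⟪v, ν⟫) :
    Good e (p + τ • v) (v - (2 * ⟪v, ν⟫) • ν) := by
  rcases le_or_gt (zz e (p + τ • v)) 0 with hy | hy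
  · have h9 := landing hg hτ.le hin hy
    rcases h9.eq_or_lt with h | h
    · -- the focal sphere
      have hb' := hb
      rw [(isOpen_room e).frontier_eq] at hb'
      have hy0 : zz e (p + τ • v) = 0 := by
        by_contra hc
        have hlt : zz e (p + τ • v) < 0 := lt_of_le_of_ne hy hc
        have h1 := closure_room_Lo hb'.1 hlt
        rw [Lo_of_small (by rw [h]; norm_num)] at h1
        unfold Wl at h1
        rw [h] at h1
        linarith
      obtain ⟨F, hF, hνF⟩ := hν
      rw [hF.normal_unique (isDef_Wl he h hy0) (isOpen_room e) hb, gradient_Wl h, norm_neg, he,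
        inv_one, one_smul] at hνF
      have hwv : ⟪v, ν⟫ = -zz e v := by
        rw [hνF, inner_neg_right, real_inner_comm]
        rfl
      have hv1 : zz e v < 0 := by linarith
      have e1 : zz e (v - (2 * ⟪v, ν⟫) • ν) = -zz e v := by
        rw [hwv, hνF, sub_eq_add_neg, ← smul_neg, neg_neg, zz_vert he]
        ring
      right
      refine ⟨Or.inr ⟨hy0, by rw [e1]; linarith⟩, ?_⟩
      rw [QQ_zero hy0, h]
    · exact Or.inl ⟨hy, h⟩
  · have h1 := rising hg hτ.le hin hy
    have hb' := hb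
    rw [(isOpen_room e).frontier_eq] at hb'
    have hE : El e (p + τ • v) = 0 := by
      refine le_antisymm (closure_room_El hb'.1) ?_
      by_contra hc
      push Not at hc
      exact hb'.2 ⟨hc, Or.inl hy⟩
    right
    refine ⟨Or.inl hy, reflect_ell he hE hν hb hy ?_⟩
    rw [QQ_line]
    exact h1

/-- **The photons from the central pocket never enter the outer pocket.** -/
theorem photon_trap {e : Euc n} (he : ‖e‖ = 1) {p v : Euc n} {t : ℝ} {q : Euc n}
    (h : Photon (Room e) p v t q) (hg : Good e p v) (hy : zz e q ≤ 0) : rr e q ≤ 9 := by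
  induction h with
  | fly p v t ht hin =>
    exact landing hg ht (fun s hs => hin s ⟨hs.1, hs.2.le⟩) hy
  | bounce p v ν q τ t hτ hin hb hν hv _ ih =>
    exact ih (good_bounce he hg hτ hin hb hν hv) hy

end Pool.Agent.H65PR
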